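import Mathlib
import Pool.Agent.H852.QP.Hom

set_option autoImplicit false

/-!
# Effective divisors with nearly equal multiplicities, quasi-polynomial range

For every `ε > 0` there is an `N` such that the following holds. Let `P i`, `i < s`, be `s ≥ N`
points of the plane over a field `k` of characteristic zero whose `2 s` coordinates are
algebraically independent over `ℚ`, and let `w i ∈ {m, m + 1}` with
`1 ≤ m ≤ exp ((log s) ^ 2 / 64)`. If `|2 d + 3 - √s - 2 (∑ w i) / √s| ≥ ε` and there is a nonzero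
form of degree `d` with multiplicity at least `w i` at `P i` for all `i`, then the conditions are
independent, so that the divisor class `d H - ∑ w i E i` has `h¹ = 0`.
-/

namespace Pool.Agent.Results.MP_0dccba_ag.NearUniformQuasiPolynomial

/-- The homogeneous ideal of the fat points with support `(P i 0 : P i 1 : 1)` and multiplicity
`w i`: the intersection of the `w i`-th powers of the ideals of the points. -/
noncomputable def fat {k : Type} [Field k] {s : ℕ} (P : Fin s → Fin 2 → k) (w : Fin s → ℕ) :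
    Ideal (MvPolynomial (Fin 3) k) :=
  ⨅ i : Fin s,
    (Ideal.span
      ({MvPolynomial.X 0 - MvPolynomial.C (P i 0) * MvPolynomial.X 2,
        MvPolynomial.X 1 - MvPolynomial.C (P i 1) * MvPolynomial.X 2} :
        Set (MvPolynomial (Fin 3) k))) ^ (w i)

theorem result (ε : ℝ) (hε : 0 < ε) : ∃ N : ℕ, ∀ (k : Type) [Field k] [CharZero k] (s : ℕ),
    N ≤ s → ∀ m : ℕ, 0 < m → (m : ℝ) ≤ Real.exp (Real.log s ^ 2 / 64) →
    ∀ w : Fin s → ℕ, (∀ i, w i = m ∨ w i = m + 1) →
    ∀ P : Fin s → Fin 2 → k,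
    AlgebraicIndependent ℚ (fun ij : Fin s × Fin 2 => P ij.1 ij.2) →
    ∀ d : ℕ, ε ≤ |2 * (d : ℝ) + 3 - Real.sqrt s - 2 * (∑ i, (w i : ℝ)) / Real.sqrt s| →
    ∀ G : MvPolynomial (Fin 3) k, G ≠ 0 → G.IsHomogeneous d → G ∈ fat P w →
    Module.finrank k
      ↥(MvPolynomial.homogeneousSubmodule (Fin 3) k d ⊓ Submodule.restrictScalars k (fat P w))
      + ∑ i, Nat.choose (w i + 1) 2 = Nat.choose (d + 2) 2 := by
  obtain ⟨N, hN, h'⟩ := H852.QP.near_uniformQ hε
  refine ⟨N, fun k _ _ s hs m hm hmX w hw P hP d hd G hG hGd hGm => ?_⟩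
  obtain ⟨F, hF, hF'⟩ := h' k s hs m hm hmX w hw
  have h1 := hF' P (fun h0 => hF (hP.eq_zero_of_aeval_eq_zero F h0)) d hd
  unfold fat at hGm ⊢
  rw [Ideal.mem_iInf] at hGm
  exact h1.eff hG hGd hGm

end Pool.Agent.Results.MP_0dccba_ag.NearUniformQuasiPolynomial
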