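import Mathlib
import Pool.Agent.H713R3.PrimeQ

set_option autoImplicit false

/-!
# SHGH for blow-ups of the plane at generic points: quasi-polynomially thin window

Let `k` be an algebraically closed field of any characteristic, `s ≥ 5 ^ 168`, and let `P i`,
`i < s`, be generic points of the plane over `k`. Put `ε = exp (-(log s) ^ 2 / 31)`. For all
multiplicities `w` and all `d`, the class `d H - ∑ w i E i` is not effective if
`√s d ≤ (1 - ε) ∑ w i` or `√s d < ∑ w i ≤ exp ((log s) ^ 2 / 92)`, and has `h¹ = 0` if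
`√s (w i + 1) ≤ (1 - ε) d` for all `i`.
-/

namespace Pool.Agent.Results.MP_0dccba_ag.QuasiPolynomialWindow

open MvPolynomial Pool.Agent.H932R5

universe u

/-- The homogeneous ideal of the fat points with support `(1 : P i 0 : P i 1)` and multiplicity
`w i`: the intersection of the `w i`-th powers of the ideals of the points. -/
noncomputable def fat {k : Type u} [Field k] {s : ℕ} (P : Fin s → Fin 2 → k) (w : Fin s → ℕ) :
    Ideal (MvPolynomial (Fin 3) k) :=
  ⨅ i : Fin s, (Ideal.span {X 1 - C (P i 0) * X 0, X 2 - C (P i 1) * X 0}) ^ (w i)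

theorem result (k : Type u) [Field k] [IsAlgClosed k] (s : ℕ) (hs : 5 ^ 168 ≤ s)
    (P : Fin s → Fin 2 → k)
    (hP : AlgebraicIndependent (⊥ : Subfield k) (fun ij : Fin s × Fin 2 => P ij.1 ij.2))
    (w : Fin s → ℕ) (d : ℕ) :
    ((0 < ∑ i, w i ∧
        (Real.sqrt s * d ≤ (1 - Real.exp (-(Real.log s ^ 2 / 31))) * ∑ i, (w i : ℝ) ∨
          (Real.sqrt s * d < ∑ i, (w i : ℝ) ∧
            ∑ i, (w i : ℝ) ≤ Real.exp (Real.log s ^ 2 / 92)))) →
      ∀ G : MvPolynomial (Fin 3) k, G.IsHomogeneous d → G ∈ fat P w → G = 0) ∧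
    ((∀ i, Real.sqrt s * (w i + 1) ≤ (1 - Real.exp (-(Real.log s ^ 2 / 31))) * d) →
      Module.finrank k
        ↥(homogeneousSubmodule (Fin 3) k d ⊓ Submodule.restrictScalars k (fat P w))
        + ∑ i, Nat.choose (w i + 1) 2 = Nat.choose (d + 2) 2) := by
  have hVd : (homogeneousSubmodule (Fin 3) k d ⊓ Submodule.restrictScalars k (fat P w)) =
      Vd (E := 1) d w P := by
    unfold fat
    rw [H852.QP.Vd_plane]
  constructor
  · rintro ⟨h0, hd⟩ G hG hGm
    have h4 := (H713R3.empty_win hs hP h0 hd).bot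
    have h5 : G ∈ Vd (E := 1) d w P := by
      rw [← hVd]
      exact Submodule.mem_inf.2 ⟨hG, hGm⟩
    rw [h4] at h5
    exact (Submodule.mem_bot k).1 h5
  · intro hd
    rw [hVd]
    have h4 := (H713R3.surj_win hs hP hd).finrank
    rw [add_comm]
    exact h4

end Pool.Agent.Results.MP_0dccba_ag.QuasiPolynomialWindow
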